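import Pool.Agent.helper80.HM.SpecB

/-! # HM: row NUM (the parameters) -/

namespace Pool.Agent.HM

theorem NUM : NUM_stmt := by
  intro M a t S k κ σ ha hS hσ hk h1 h2
  obtain ⟨lam, hlam⟩ : ∃ x, x = Nat.log 2 M + 2 := ⟨_, rfl⟩
  rw [← hlam] at h2
  obtain ⟨l, hl⟩ : ∃ x, x = 2 * (t + 1) ^ 2 * σ := ⟨_, rfl⟩
  obtain ⟨L, hL⟩ : ∃ x, x = (a + 1) * l := ⟨_, rfl⟩
  obtain ⟨N, hN⟩ : ∃ x, x = 3 + σ + 2 * L * lam := ⟨_, rfl⟩
  have hσ1 : 1 ≤ σ := by
    rcases Nat.eq_zero_or_pos σ with h | h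
    · subst h; simp at hσ; omega
    · exact h
  have hlam2 : 2 ≤ lam := by omega
  have ht1 : 1 ≤ (t + 1) ^ 2 := Nat.one_le_pow _ _ (by omega)
  have hl2 : 2 * σ ≤ l := by rw [hl]; nlinarith
  have hL4 : 4 * σ ≤ L := by rw [hL]; nlinarith
  have h4L : 8 * (a + 1) * (t + 1) ^ 2 * σ = 4 * L := by rw [hL, hl]; ring
  have h16 : 16 * L ^ 2 < k := by
    rw [h4L] at h1
    calc 16 * L ^ 2 = (4 * L) ^ 2 := by ring
      _ < k := h1
  have hkpos : 0 < k := by omega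
  have hB : k ≤ 8 * a * k ^ 2 * lam := by
    have e1 : k ≤ k ^ 2 := Nat.le_self_pow (by norm_num) k
    have e2 : 1 ≤ 8 * a := by omega
    calc k ≤ k ^ 2 := e1
      _ = 1 * k ^ 2 * 1 := by ring
      _ ≤ 8 * a * k ^ 2 * lam := Nat.mul_le_mul (Nat.mul_le_mul e2 le_rfl) (by omega)
  have hB1 : 8 * a * k ^ 2 * lam ≤ (8 * a * k ^ 2 * lam) ^ (t + 1) := Nat.le_self_pow (by omega) _
  have hkM : k ≤ M := by omega
  have hM1 : M + 1 ≤ 2 ^ (lam - 1) := by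
    have e : lam - 1 = Nat.log 2 M + 1 := by omega
    rw [e]
    exact Nat.lt_pow_succ_log_self (by norm_num) M
  have hlL : l ≤ L := by rw [hL]; nlinarith
  have haL : a ≤ L := by rw [hL]; nlinarith
  have hLN : L ≤ N := by rw [hN]; nlinarith
  refine ⟨l, L, N, ⟨ha, hS, hσ, hl, hL, by omega, by omega, ?_, ?_⟩, ?_⟩
  · -- hN
    have e1 : 8 * S ≤ 2 ^ (3 + σ) := by rw [pow_add]; omega
    have e2 : (M + 1) ^ L ≤ 2 ^ ((lam - 1) * L) := by rw [pow_mul]; exact Nat.pow_le_pow_left hM1 L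
    have e3 : (k - 1) ^ l ≤ 2 ^ ((lam - 1) * L) := by
      calc (k - 1) ^ l ≤ (M + 1) ^ l := Nat.pow_le_pow_left (by omega) l
        _ ≤ (2 ^ (lam - 1)) ^ l := Nat.pow_le_pow_left hM1 l
        _ = 2 ^ ((lam - 1) * l) := by rw [← pow_mul]
        _ ≤ 2 ^ ((lam - 1) * L) := Nat.pow_le_pow_right (by norm_num) (Nat.mul_le_mul le_rfl hlL)
    calc 8 * S * (M + 1) ^ L * (k - 1) ^ l ≤ 2 ^ (3 + σ) * 2 ^ ((lam - 1) * L) * 2 ^ ((lam - 1) * L) :=
          Nat.mul_le_mul (Nat.mul_le_mul e1 e2) e3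
      _ = 2 ^ (3 + σ + (lam - 1) * L + (lam - 1) * L) := by rw [← pow_add, ← pow_add]
      _ ≤ 2 ^ N := by
          apply Nat.pow_le_pow_right (by norm_num)
          have : (lam - 1) * L ≤ lam * L := Nat.mul_le_mul (Nat.sub_le _ _) le_rfl
          rw [hN]; nlinarith
  · exact (haL.trans hLN).trans Nat.lt_two_pow_self.le
  · -- nd
    have hNl : N ≤ 3 * L * lam := by rw [hN]; nlinarith
    have h3L : 3 * L ≤ k := by
      have : 1 ≤ L := by omega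
      nlinarith
    have e1 : 16 * L * N * k ≤ 8 * a * k ^ 2 * lam := by
      calc 16 * L * N * k ≤ 16 * L * (3 * L * lam) * k := Nat.mul_le_mul (Nat.mul_le_mul le_rfl hNl) le_rfl
        _ = 3 * (16 * L ^ 2) * k * lam := by ring
        _ ≤ 3 * k * k * lam := Nat.mul_le_mul (Nat.mul_le_mul (Nat.mul_le_mul le_rfl h16.le) le_rfl) le_rfl
        _ = 3 * (k ^ 2 * lam) := by ring
        _ ≤ (8 * a) * (k ^ 2 * lam) := Nat.mul_le_mul (by omega) le_rfl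
        _ = 8 * a * k ^ 2 * lam := by ring
    have e2 : 8 * k * a * N ≤ 8 * a * k ^ 2 * lam := by
      calc 8 * k * a * N ≤ 8 * k * a * (3 * L * lam) := Nat.mul_le_mul le_rfl hNl
        _ = 8 * a * k * (3 * L) * lam := by ring
        _ ≤ 8 * a * k * k * lam := Nat.mul_le_mul (Nat.mul_le_mul le_rfl h3L) le_rfl
        _ = 8 * a * k ^ 2 * lam := by ring
    calc nd a k L N t = 16 * L * N * k * (8 * k * a * N) ^ t := rfl
      _ ≤ (8 * a * k ^ 2 * lam) * (8 * a * k ^ 2 * lam) ^ t := Nat.mul_le_mul e1 (Nat.pow_le_pow_left e2 t)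
      _ = (8 * a * k ^ 2 * lam) ^ (t + 1) := by rw [pow_succ]; ring
      _ ≤ M - (κ - k) := h2

end Pool.Agent.HM
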